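import Pool.Agent.CGR.Asm

/-!
# MP_3af9db_ag: cycle classes over a finite field and the growth of two ranks

For the example `T i` is the l-adic etale homology `H_n(Xbar, Q_l(i))` of the varieties over the
finite field `k`, and `E = Q_l`.  The varieties `V` of level `n` are the smooth hypersurfaces
`y ^ 2 - y = F(x_1, ..., x_3n)`, where `F` is a sum of distinct squarefree monomials with
coefficient one, one for each edge of a hypergraph with the vertices `1, ..., 3n`, plus a linear
form whose nonzero coefficients are elements of a fixed set `B` which generates the ring `k`; the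
edges have at most three vertices and every vertex is in at most three edges.  For `k = F_p` the set
`B` may be empty, so that there is no linear form, and the hypersurfaces are the reductions modulo
`p` of schemes over the integers.
The proof is described in `Pool/Agent/CGR/PAPER.md` (growth), `Pool/Agent/CGAP/PAPER.md` (ranks),
`Pool/Agent/CUB/PAPER.md` (cubics and affine varieties) and `Pool/Agent/CUB2/PAPER.md` (all
varieties).
-/

set_option autoImplicit false

universe v

namespace Pool.Agent.Results.MP_3af9db_ag.CubicGrowth

open AlgebraicGeometry Pool.Agent.Lib_helper55.Beil CUB CGR Cardinal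

/-- Let `a(V)` be the dimension of the Chow group and `b(V)` the dimension of the space of
Frobenius invariants of `V` in codimension `n`, for the hypersurfaces `V` of level `n`.
(A) The cycle classes span the Frobenius invariants, with semisimplicity, for all varieties and
cycles of all dimensions, if and only if for every `K` there are infinitely many `n` with
`K b(V) ≤ 2 ^ n` for all `V` of level `n` on which all cycle classes are zero.
(B) The cycle class maps of all affine varieties are injective if and only if for every `K` there
are infinitely many `n` with `K a(V) ≤ 2 ^ n` for all these `V`.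
(C) Equivalent: for every `K` there are infinitely many `n` with `K |a(V) - b(V)| ≤ 2 ^ n` for all
`V` of level `n`; for every `K` there are infinitely many `n` such that for all `V` of level `n`
the number `a(V)` is finite, `K b(V) ≤ 2 ^ n` if `a(V) = 0`, and `K a(V) ≤ 2 ^ n` if `b(V) = 0`;
for all varieties and cycles of all dimensions the cycle class map is injective, its image is
the space of invariants of Frobenius, and the eigenvalue one is semisimple. -/
theorem result (k : Type) [Field k] [Finite k] (B : Set k) (hB : Subring.closure B = ⊤)
    (E : Type) [Field E] [CharZero E] (T : ∀ i : ℕ, Homology.{v} k E i) (hT : Full T) :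
    (TateBound B T ↔ ∀ (i : ℕ) (X : Var k), (T i).Surj X ∧ (T i).Semisimple X) ∧
    (ChowBound B T ↔ ∀ (i : ℕ) (X : Var k), IsAffine X.X → (T i).Inj X) ∧
    [DifferenceBound B T, RankBound B T,
      ∀ (i : ℕ) (X : Var k), (T i).Inj X ∧ (T i).Surj X ∧ (T i).Semisimple X].TFAE := by
  have hp : ∀ n : ℕ, ((2 ^ n : ℕ) : Cardinal.{0}) = 2 ^ n := fun n => by push_cast; rfl
  refine ⟨⟨Mn.tate Asm.s_FMG B hB T hT, fun h K N => ⟨N, le_rfl, fun V _ hc => ?_⟩⟩,
    ⟨fun h => Mn.beil Asm.s_FMG CGAP.Asm.s_KEYZ B hB T hT ?_,
      fun h K N => ⟨N, le_rfl, fun V hV hc => ?_⟩⟩, ?_⟩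
  · have h1 : tateRank (T (2 * N)) V = 0 :=
      Nat.le_zero.mp (CGAP.Fin.tate_of_all T (2 * N) V (h _ _).1 hc)
    rw [h1, mul_zero]
    exact Nat.zero_le _
  · simp only [hp]
    exact h
  · change _ * _ ≤ _
    obtain ⟨H, c, -, -, rfl, -⟩ := hV
    have h1 := Mn.beil_of_all T K N (2 * N) (cubic (hyp H c))
      (h _ _ (inferInstanceAs (IsAffine (Spec _)))) hc
    rw [hp] at h1
    exact h1
  tfae_have 1 → 2 := by
    intro h
    have h1 := Mn.rank_of_num B T h
    simp only [hp] at h1
    exact h1
  tfae_have 2 → 3 := by
    intro h
    refine Mn.rank Asm.s_FMG CGAP.Asm.s_SMS CGAP.Asm.s_KEY B hB T hT ?_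
    simp only [hp]
    exact h
  tfae_have 3 → 1 := fun h K N => ⟨N, le_rfl, fun V _ =>
    Mn.num_of_all T K N (2 * N) V ⟨(h _ _).1, (h _ _).2.1⟩⟩
  tfae_finish

end Pool.Agent.Results.MP_3af9db_ag.CubicGrowth
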