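import Pool.Agent.HL.Cl

/-!
# MP_3af9db_ag: the cycle class maps of the powers of a variety, and more than half is everything

`T : ChowTheory V` are the Chow groups with rational coefficients of the nonempty smooth projective
varieties of pure dimension over a finite field with `q` elements, with their usual formal properties,
`K` is a cohomology theory for which the trace formula, the Kuenneth formula and the theorem on the
absolute values of the eigenvalues of Frobenius hold (`l`-adic cohomology; the coefficients are `ℂ`,
isomorphic to an algebraic closure of the `l`-adic numbers; the bijectivity of the cycle class map and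
the semisimplicity of an eigenvalue do not change under an extension of the coefficients).
No conjecture is assumed.

`e ≠ 0` is an element of `H(point)`, a space of dimension one. The class `K.cl e a` in `H^(2i)(Y)` of
`a ∈ CH^i(Y)` is the image of `e` under `a`, considered as a correspondence from the point to `Y`. It
is a Tate class: an `x ∈ H^(2i)(Y)` with `F x = q ^ i x`, `F` the Frobenius, that is, an invariant
element of `H^(2i)(Y)(i)`.

* `K.ClInjective e Y i`: the map `CH^i(Y) ⊗ ℂ → H^(2i)(Y)(i)` is injective.
* `K.ClSurjective e Y i`: all Tate classes in `H^(2i)(Y)` are linear combinations of classes of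
  cycles in `CH^i(Y)`.
* `K.Semisimple Y i`: the eigenvalue `q ^ i` of Frobenius on `H(Y)` is semisimple.

For a variety `X` of dimension `d` let `N_r`, `R_r` be the dimensions of `CH^(r d)(X^r × X^r)` modulo
numerical equivalence and of `CH^(r d)(X^r × X^r)` itself (`R_r = 0` and `N_r / R_r = 0` if it is
infinite), and let `M_r` be the (algebraic) multiplicity of the eigenvalue `q ^ (r d)` of Frobenius on
`H(X^r × X^r)` (`T.NN X r`, `T.RR X r`, `K.MM X r`).

(1) One variety `X`, `H(X) ≠ 0`. The ratios `N_r / M_r` and `N_r / R_r` converge; the limits `L` and
`L'` are `0` or `1 / n` for a natural number `n ≥ 1`, and they are at most equal to all terms. We have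
`L > 1 / 2` if and only if for all powers `Y` of `X` and all `i` for which `CH^i(Y)` modulo numerical
equivalence is not `0` (this excludes only the `i < 0` and the `i > dim Y`): all Tate classes are
linear combinations of classes of cycles, the eigenvalue `q ^ i` is semisimple, and numerically
trivial cycles have class `0`. We have `L > 1 / 2` and `L' > 1 / 2` if and only if for all such `Y`
and `i` the cycle class map from `CH^i(Y) ⊗ ℂ` to the space of the Tate classes is bijective and the
eigenvalue `q ^ i` is semisimple.

(2) The cycle class map from `CH^i(Y) ⊗ ℂ` to the space of Tate classes is bijective and the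
eigenvalue `q ^ i` is semisimple for all `Y` and all `i`, if and only if for every `X` with
`H(X) ≠ 0` there are `c, c' > 1/2` with `c ≤ N_r / M_r` for infinitely many `r` and
`c' ≤ N_r / R_r` for infinitely many `r`.

The right hand sides are the generalised Beilinson conjecture for smooth projective varieties,
together with the semisimplicity; the conjecture for all varieties over the finite field follows from
it (Jannsen 1990, with the alterations of de Jong; not formalised). `M_r` does not depend on `l`.

Method.  The ratios: see `Pool/Agent/Results/MP_6c4da4_ag/HalfLaw.lean`; with `L = 1` and `L' = 1` it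
gives `N = M` and the vanishing of the numerically trivial cycles on the powers of `X`. Cycles which
are linearly independent modulo numerical equivalence have classes which are linearly independent over
`ℂ`, by the pairing with the classes of other cycles; so if `N(Y, i) = M(Y, i)` then the classes of
cycles span the generalised eigenspace of `q ^ i`, and numerically trivial cycles have class `0`.
Conversely, let the cycle class map of `Z × Z` in codimension `dim Z` be bijective onto the Tate
classes, and the eigenvalue semisimple. Then `CH^(dim Z)(Z × Z) ⊗ ℂ` has the dimension `∑ dim(P) ^ 2`,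
the sum over the generalised eigenspaces `P` of `F` on `H(Z)`. So it is the algebra of all
endomorphisms of `H(Z)` which preserve all `P`. Such an endomorphism is `0` if all its products with
the others have trace `0` (with the signs of the degrees); by the trace formula, numerically trivial
cycles in `CH^(dim Z)(Z × Z)` are `0`, and `N = M` there. This is applied to `Z = X^r`.
-/

set_option autoImplicit false

open CategoryTheory MonoidalCategory CHS

universe v u w x

namespace Pool.Agent.Results.MP_3af9db_ag.PowersHalfLaw

variable {V : Type u} [Category.{v} V] [CartesianMonoidalCategory V]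

theorem result {T : ChowTheory.{v, u, w} V} (K : Cohomology.{v, u, w, x} T) {e : K.H (𝟙_ V)}
    (he : e ≠ 0) :
    (Module.finrank ℂ (K.H (𝟙_ V)) = 1 ∧
      ∀ (Y : V) (i : ℤ), ∀ a ∈ T.cyc Y i, K.IsTate Y i (K.cl e a)) ∧
    (∀ X : V, K.B X ≠ 0 → ∃ L L' : ℝ,
      Quantized (fun r => (T.NN X r : ℝ) / K.MM X r) L ∧
      Quantized (fun r => (T.NN X r : ℝ) / T.RR X r) L' ∧
      (1 / 2 < L ↔ ∀ (Y : V) (r : ℕ), Nonempty (Y ≅ pow X r) → ∀ i, T.N Y i ≠ 0 →
        K.ClSurjective e Y i ∧ K.Semisimple Y i ∧
          ∀ a ∈ T.cyc Y i, T.NumTrivial a → K.cl e a = 0) ∧
      (1 / 2 < L ∧ 1 / 2 < L' ↔ ∀ (Y : V) (r : ℕ), Nonempty (Y ≅ pow X r) →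
        ∀ i, T.N Y i ≠ 0 → K.ClInjective e Y i ∧ K.ClSurjective e Y i ∧ K.Semisimple Y i)) ∧
    ((∀ X : V, K.B X ≠ 0 → MoreThanHalf (fun r => (T.NN X r : ℝ) / K.MM X r) ∧
        MoreThanHalf fun r => (T.NN X r : ℝ) / T.RR X r) ↔
      ∀ (Y : V) (i : ℤ), K.ClInjective e Y i ∧ K.ClSurjective e Y i ∧ K.Semisimple Y i) :=
  K.classes he

end Pool.Agent.Results.MP_3af9db_ag.PowersHalfLaw
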