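import Pool.Agent.BSR.MN
import Pool.Agent.BSR.CONN
import Pool.Agent.BSR.LOD
import Pool.Agent.BSR.NON
import Pool.Agent.BSR.RUL
import Pool.Agent.BSR.PRS
import Pool.Agent.BSR.VAR
import Pool.Agent.BSR.GLB
import Pool.Agent.BSR.GRD
import Pool.Agent.BSR.LIM
import Pool.Agent.BSR.ARE
import Pool.Agent.BSR.REL
import Pool.Agent.BSR.NUM
import Pool.Agent.BSR.COR
import Pool.Agent.BSR.MAI

/-!
# A randomised batch-style algorithm for narrow jobs on a linear array

For every `ε > 0` there is a `β > 0` such that for all `m` and all requests `s j ≤ β m` there is a randomised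
batch-style algorithm whose expected makespan is at most `(1 + 2 log 2 + ε) OPT` for all running times; the
constant is about `2.387`, the best known ratio is `2.5`.
-/

set_option autoImplicit false

namespace Pool.Agent.Variants.RandomisedNarrow

open Pool.Agent.BSR

theorem result (ε : ℝ) (hε : 0 < ε) :
    ∃ β : ℝ, 0 < β ∧ ∀ (m n : ℕ) (s : Fin n → ℕ), (∀ j, 1 ≤ s j ∧ (s j : ℝ) ≤ β * m) →
      ∃ (Ω : Type) (_ : Fintype Ω) (p : Ω → ℝ) (A : Ω → Rule m s), (∀ ω, 0 ≤ p ω) ∧ ∑ ω, p ω = 1 ∧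
        ∀ t : Fin n → ℝ, (∀ j, 0 ≤ t j) →
          ∑ ω, p ω * makespan t ((A ω).run t) ≤ (1 + 2 * Real.log 2 + ε) * OPT m s t :=
  x_MAI (x_COR (x_RUL (x_CON x_MN) (x_LOD x_MN) (x_NON x_MN)) x_PRS (x_VAR x_PRS) x_GLB (x_GRD x_GLB) x_ARE
    x_NUM) x_REL x_LIM x_ARE ε hε

end Pool.Agent.Variants.RandomisedNarrow
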