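import Mathlib

/-!
# Skew-symmetric linear `(2,p,p)` all-or-nothing transforms

For every odd prime `p` and every `τ` in `ZMod p`, a `τ`-skew-symmetric linear `(2,p,p)`-AONT
(in type `p` standard form) exists if and only if `τ ≠ 0`.  The matrix is
`m i j = - τ x_i / (x_j - x_i)` on the indices other than the first.
-/

open Finset

namespace Pool.Agent.Variants.SkewAllPrimes

/-- A linear `(2,s,q)`-AONT over the field `F` (with `q` elements): an invertible `s × s` matrix
all of whose `2 × 2` submatrices are invertible. -/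
def IsLinearAONT {F : Type*} [Field F] {s : ℕ} (M : Matrix (Fin s) (Fin s) F) : Prop :=
  IsUnit M ∧ ∀ i i' j j' : Fin s, i ≠ i' → j ≠ j' → M i j * M i' j' - M i j' * M i' j ≠ 0

/-- Type `p` standard form: zero diagonal, and all other entries of the first row and of the first
column equal to `1`. -/
def StandardForm {p : ℕ} [NeZero p] (M : Matrix (Fin p) (Fin p) (ZMod p)) : Prop :=
  (∀ i, M i i = 0) ∧ ∀ i, i ≠ 0 → M 0 i = 1 ∧ M i 0 = 1

/-- `τ`-skew-symmetry of the matrix with its first row and column removed. -/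
def SkewSymmetric {p : ℕ} [NeZero p] (τ : ZMod p) (M : Matrix (Fin p) (Fin p) (ZMod p)) : Prop :=
  ∀ i j, i ≠ 0 → j ≠ 0 → i ≠ j → M i j + M j i = τ

section
variable {p : ℕ} [hp : Fact p.Prime]

/-- the value attached to an index -/
noncomputable def xx (i : Fin p) : ZMod p := ZMod.finEquiv p i

theorem xx_zero : xx (0 : Fin p) = 0 := map_zero _

theorem xx_inj : Function.Injective (xx : Fin p → ZMod p) := (ZMod.finEquiv p).injective

theorem xx_ne {i : Fin p} (h : i ≠ 0) : xx i ≠ 0 := by
  intro h0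
  exact h (xx_inj (h0.trans xx_zero.symm))

theorem sum_xx (f : ZMod p → ZMod p) : ∑ i : Fin p, f (xx i) = ∑ x : ZMod p, f x :=
  (ZMod.finEquiv p).toEquiv.sum_comp f

/-- the matrix -/
noncomputable def mat (τ : ZMod p) : Matrix (Fin p) (Fin p) (ZMod p) := fun i j =>
  if i = 0 then (if j = 0 then 0 else 1)
  else if j = 0 then 1 else - τ * xx i / (xx j - xx i)

theorem mat_zero (τ : ZMod p) {j : Fin p} (hj : j ≠ 0) : mat τ 0 j = 1 := by
  simp [mat, hj]

theorem mat_zero' (τ : ZMod p) {j : Fin p} (hj : j ≠ 0) : mat τ j 0 = 1 := by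
  simp [mat, hj]

theorem mat_zero_zero (τ : ZMod p) : mat τ (0 : Fin p) 0 = 0 := by
  simp [mat]

theorem mat_ne (τ : ZMod p) {i j : Fin p} (hi : i ≠ 0) (hj : j ≠ 0) :
    mat τ i j = - τ * xx i / (xx j - xx i) := by
  simp [mat, hi, hj]

theorem standard (τ : ZMod p) : StandardForm (mat τ) := by
  refine ⟨?_, fun i hi => ⟨mat_zero τ hi, mat_zero' τ hi⟩⟩
  intro i
  by_cases hi : i = 0
  · subst hi; exact mat_zero_zero τ
  · rw [mat_ne τ hi hi]; simp

theorem skew (τ : ZMod p) : SkewSymmetric τ (mat τ) := by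
  intro i j hi hj hij
  rw [mat_ne τ hi hj, mat_ne τ hj hi]
  have h1 : xx j - xx i ≠ 0 := sub_ne_zero.mpr (fun h => hij (xx_inj h).symm)
  have h2 : xx i - xx j ≠ 0 := sub_ne_zero.mpr (fun h => hij (xx_inj h))
  field_simp
  ring

theorem minors {τ : ZMod p} (hτ : τ ≠ 0) (i i' j j' : Fin p) (hi : i ≠ i') (hj : j ≠ j') :
    mat τ i j * mat τ i' j' - mat τ i j' * mat τ i' j ≠ 0 := by
  -- the general position estimate for four nonzero indices
  have gen : ∀ a b c d : ZMod p, a ≠ 0 → b ≠ 0 → a ≠ b → c ≠ d →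
      (- τ * a / (c - a)) * (- τ * b / (d - b)) - (- τ * a / (d - a)) * (- τ * b / (c - b)) ≠ 0 := by
    intro a b c d ha hb hab hcd
    by_cases h1 : c = a
    · subst h1
      have h2 : d - c ≠ 0 := sub_ne_zero.mpr (Ne.symm hcd)
      have h3 : c - b ≠ 0 := sub_ne_zero.mpr hab
      rw [sub_self, div_zero, zero_mul, zero_sub, neg_ne_zero]
      exact mul_ne_zero (div_ne_zero (mul_ne_zero (neg_ne_zero.mpr hτ) ha) h2)
        (div_ne_zero (mul_ne_zero (neg_ne_zero.mpr hτ) hb) h3)
    by_cases h2 : d = b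
    · subst h2
      have h3 : d - a ≠ 0 := sub_ne_zero.mpr (Ne.symm hab)
      have h4 : c - d ≠ 0 := sub_ne_zero.mpr hcd
      rw [sub_self, div_zero, mul_zero, zero_sub, neg_ne_zero]
      exact mul_ne_zero (div_ne_zero (mul_ne_zero (neg_ne_zero.mpr hτ) ha) h3)
        (div_ne_zero (mul_ne_zero (neg_ne_zero.mpr hτ) hb) h4)
    by_cases h3 : d = a
    · subst h3
      have h4 : c - d ≠ 0 := sub_ne_zero.mpr h1
      have h5 : d - b ≠ 0 := sub_ne_zero.mpr h2
      rw [sub_self, div_zero, zero_mul, sub_zero]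
      exact mul_ne_zero (div_ne_zero (mul_ne_zero (neg_ne_zero.mpr hτ) ha) h4)
        (div_ne_zero (mul_ne_zero (neg_ne_zero.mpr hτ) hb) h5)
    by_cases h4 : c = b
    · subst h4
      have h5 : c - a ≠ 0 := sub_ne_zero.mpr h1
      have h6 : d - c ≠ 0 := sub_ne_zero.mpr h2
      rw [sub_self, div_zero, mul_zero, sub_zero]
      exact mul_ne_zero (div_ne_zero (mul_ne_zero (neg_ne_zero.mpr hτ) ha) h5)
        (div_ne_zero (mul_ne_zero (neg_ne_zero.mpr hτ) hb) h6)
    have g1 : c - a ≠ 0 := sub_ne_zero.mpr h1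
    have g2 : d - b ≠ 0 := sub_ne_zero.mpr h2
    have g3 : d - a ≠ 0 := sub_ne_zero.mpr h3
    have g4 : c - b ≠ 0 := sub_ne_zero.mpr h4
    have g5 : a - b ≠ 0 := sub_ne_zero.mpr hab
    have g6 : c - d ≠ 0 := sub_ne_zero.mpr hcd
    have e : (- τ * a / (c - a)) * (- τ * b / (d - b)) - (- τ * a / (d - a)) * (- τ * b / (c - b))
        = τ ^ 2 * a * b * ((b - a) * (c - d)) / ((c - a) * (d - b) * ((d - a) * (c - b))) := by
      field_simp
      ring
    rw [e]
    have g7 : b - a ≠ 0 := sub_ne_zero.mpr (Ne.symm hab)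
    exact div_ne_zero (mul_ne_zero (mul_ne_zero (mul_ne_zero (pow_ne_zero 2 hτ) ha) hb)
      (mul_ne_zero g7 g6)) (mul_ne_zero (mul_ne_zero g1 g2) (mul_ne_zero g3 g4))
  -- two rows different from the first: distinct entries in the columns
  have dist : ∀ a b c : ZMod p, a ≠ 0 → b ≠ 0 → c ≠ 0 → a ≠ b →
      - τ * a / (c - a) ≠ - τ * b / (c - b) := by
    intro a b c ha hb hc hab
    by_cases h1 : c = a
    · subst h1
      have h3 : c - b ≠ 0 := sub_ne_zero.mpr hab
      rw [sub_self, div_zero]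
      exact (div_ne_zero (mul_ne_zero (neg_ne_zero.mpr hτ) hb) h3).symm
    by_cases h2 : c = b
    · subst h2
      have h3 : c - a ≠ 0 := sub_ne_zero.mpr h1
      rw [sub_self, div_zero]
      exact div_ne_zero (mul_ne_zero (neg_ne_zero.mpr hτ) ha) h3
    have g1 : c - a ≠ 0 := sub_ne_zero.mpr h1
    have g2 : c - b ≠ 0 := sub_ne_zero.mpr h2
    intro h
    rw [div_eq_div_iff g1 g2] at h
    have : τ * c * (b - a) = 0 := by linear_combination h
    exact mul_ne_zero (mul_ne_zero hτ hc) (sub_ne_zero.mpr (Ne.symm hab)) this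
  -- entries of one row are distinct
  have dist' : ∀ a c d : ZMod p, a ≠ 0 → c ≠ d →
      - τ * a / (c - a) ≠ - τ * a / (d - a) := by
    intro a c d ha hcd h
    have h0 : - τ * a ≠ 0 := mul_ne_zero (neg_ne_zero.mpr hτ) ha
    rw [div_eq_mul_inv, div_eq_mul_inv] at h
    have h1 := inv_injective (mul_left_cancel₀ h0 h)
    exact hcd (sub_left_injective h1)
  by_cases hi0 : i = 0
  · subst hi0
    have hi' : i' ≠ 0 := Ne.symm hi
    by_cases hj0 : j = 0
    · subst hj0
      have hj' : j' ≠ 0 := Ne.symm hj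
      rw [mat_zero_zero, mat_zero τ hj', mat_zero' τ hi']
      simp
    · by_cases hj0' : j' = 0
      · subst hj0'
        rw [mat_zero_zero, mat_zero τ hj0, mat_zero' τ hi']
        simp
      · rw [mat_zero τ hj0, mat_zero τ hj0', mat_ne τ hi' hj0, mat_ne τ hi' hj0', one_mul, one_mul]
        exact sub_ne_zero.mpr (dist' _ _ _ (xx_ne hi') (fun h => hj (xx_inj h).symm))
  · by_cases hi0' : i' = 0
    · subst hi0'
      by_cases hj0 : j = 0
      · subst hj0
        have hj' : j' ≠ 0 := Ne.symm hj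
        rw [mat_zero_zero, mat_zero τ hj', mat_zero' τ hi0]
        simp
      · by_cases hj0' : j' = 0
        · subst hj0'
          rw [mat_zero_zero, mat_zero τ hj0, mat_zero' τ hi0]
          simp
        · rw [mat_zero τ hj0, mat_zero τ hj0', mat_ne τ hi0 hj0, mat_ne τ hi0 hj0', mul_one,
            mul_one]
          exact sub_ne_zero.mpr (dist' _ _ _ (xx_ne hi0) (fun h => hj (xx_inj h)))
    · by_cases hj0 : j = 0
      · subst hj0
        have hj' : j' ≠ 0 := Ne.symm hj
        rw [mat_zero' τ hi0, mat_zero' τ hi0', mat_ne τ hi0 hj', mat_ne τ hi0' hj', one_mul,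
          mul_one]
        exact sub_ne_zero.mpr (dist _ _ _ (xx_ne hi0') (xx_ne hi0) (xx_ne hj')
          (fun h => hi (xx_inj h).symm))
      · by_cases hj0' : j' = 0
        · subst hj0'
          rw [mat_zero' τ hi0, mat_zero' τ hi0', mat_ne τ hi0 hj0, mat_ne τ hi0' hj0, one_mul,
            mul_one]
          exact sub_ne_zero.mpr (dist _ _ _ (xx_ne hi0) (xx_ne hi0') (xx_ne hj0)
            (fun h => hi (xx_inj h)))
        · rw [mat_ne τ hi0 hj0, mat_ne τ hi0' hj0', mat_ne τ hi0 hj0', mat_ne τ hi0' hj0]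
          exact gen _ _ _ _ (xx_ne hi0) (xx_ne hi0') (fun h => hi (xx_inj h))
            (fun h => hj (xx_inj h))

/-- the power sums -/
theorem key_sum (hp2 : p ≠ 2) (y : ZMod p) (m : ℕ) (hm : m < p - 1) :
    ∑ x : ZMod p, x ^ (m + 1) / (y - x) = (m + 1) * y ^ m := by
  have hp3 : 2 < p := lt_of_le_of_ne hp.out.two_le (Ne.symm hp2)
  have hsum : ∀ i < p - 1, ∑ x : ZMod p, x ^ i = 0 := by
    intro i hi
    apply FiniteField.sum_pow_lt_card_sub_one
    rwa [ZMod.card]
  have hinv : ∑ x : ZMod p, (y - x)⁻¹ = 0 := by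
    have h1 : ∑ x : ZMod p, (y - x)⁻¹ = ∑ u : ZMod p, u⁻¹ :=
      (Equiv.subLeft y).sum_comp (fun u => u⁻¹)
    have h2 : ∑ u : ZMod p, u⁻¹ = ∑ u : ZMod p, u :=
      Fintype.sum_bijective (fun u => u⁻¹) inv_involutive.bijective _ _ (fun _ => rfl)
    rw [h1, h2]
    have := hsum 1 (by omega)
    simpa using this
  have hterm : ∀ x : ZMod p, x ^ (m + 1) / (y - x) = y ^ (m + 1) * (y - x)⁻¹ -
      ∑ i ∈ range (m + 1), (x ^ i * y ^ (m - i) - if x = y then y ^ m else 0) := by
    intro x
    by_cases hxy : x = y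
    · subst hxy
      have : ∀ i ∈ range (m + 1), (x ^ i * x ^ (m - i) - if x = x then x ^ m else 0) = 0 := by
        intro i hi
        rw [mem_range] at hi
        rw [if_pos rfl, ← pow_add, show i + (m - i) = m by omega, sub_self]
      rw [sum_eq_zero this]
      simp
    · have hne : y - x ≠ 0 := sub_ne_zero.mpr (Ne.symm hxy)
      have h1 : (∑ i ∈ range (m + 1), x ^ i * y ^ (m + 1 - 1 - i)) * (x - y) =
          x ^ (m + 1) - y ^ (m + 1) := (Commute.all x y).geom_sum₂_mul (m + 1)
      have h2 : ∑ i ∈ range (m + 1), (x ^ i * y ^ (m - i) - if x = y then y ^ m else 0) =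
          ∑ i ∈ range (m + 1), x ^ i * y ^ (m + 1 - 1 - i) := by
        apply sum_congr rfl
        intro i _
        rw [if_neg hxy, sub_zero, Nat.add_sub_cancel]
      rw [h2, div_eq_iff hne, sub_mul, mul_assoc, inv_mul_cancel₀ hne, mul_one]
      linear_combination -h1
  rw [sum_congr rfl (fun x _ => hterm x), sum_sub_distrib, ← mul_sum, hinv, mul_zero, zero_sub,
    sum_comm]
  have h3 : ∀ i ∈ range (m + 1), ∑ x : ZMod p,
      (x ^ i * y ^ (m - i) - if x = y then y ^ m else 0) = - y ^ m := by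
    intro i hi
    rw [mem_range] at hi
    rw [sum_sub_distrib, ← sum_mul, hsum i (by omega), zero_mul, zero_sub, sum_ite_eq']
    simp
  rw [sum_congr rfl h3]
  simp

theorem unit_mat {τ : ZMod p} (hp2 : p ≠ 2) (hτ : τ ≠ 0) : IsUnit (mat τ) := by
  rw [Matrix.isUnit_iff_isUnit_det, isUnit_iff_ne_zero]
  intro hdet
  obtain ⟨v, hv0, hv⟩ := Matrix.exists_mulVec_eq_zero_iff.mpr hdet
  apply hv0
  -- w : the vector with the first entry erased
  let w : Fin p → ZMod p := fun j => if j = 0 then 0 else v j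
  have hp3 : 2 < p := lt_of_le_of_ne hp.out.two_le (Ne.symm hp2)
  have hrow : ∀ i, ∑ j, mat τ i j * v j = 0 := fun i => congrFun hv i
  -- first row
  have hrow0 : ∑ j, w j = 0 := by
    rw [← hrow 0]
    apply sum_congr rfl
    intro j _
    by_cases hj : j = 0
    · subst hj; simp [w, mat_zero_zero]
    · simp [w, hj, mat_zero τ hj]
  -- other rows
  have hrowi : ∀ i : Fin p, i ≠ 0 → v 0 + ∑ j, (- τ * xx i / (xx j - xx i)) * w j = 0 := by
    intro i hi
    rw [← hrow i, Fintype.sum_eq_add_sum_compl 0 (fun j => mat τ i j * v j), mat_zero' τ hi,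
      one_mul, Fintype.sum_eq_add_sum_compl 0 (fun j => (- τ * xx i / (xx j - xx i)) * w j)]
    have h1 : w 0 = 0 := by simp [w]
    rw [h1, mul_zero, zero_add]
    congr 1
    apply sum_congr rfl
    intro j hj
    have hj' : j ≠ 0 := by simpa using hj
    rw [mat_ne τ hi hj']
    simp [w, hj']
  -- moments
  have hmom : ∀ m : ℕ, m < p - 1 → v 0 * (∑ i : Fin p, if i = 0 then 0 else xx i ^ m) +
      - τ * ((m + 1) * ∑ j, w j * xx j ^ m) = 0 := by
    intro m hm
    have h1 : ∑ i : Fin p, (if i = 0 then 0 else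
        xx i ^ m * (v 0 + ∑ j, (- τ * xx i / (xx j - xx i)) * w j)) = 0 := by
      apply sum_eq_zero
      intro i _
      split_ifs with hi
      · rfl
      · rw [hrowi i hi, mul_zero]
    have h2 : ∀ i : Fin p, (if i = 0 then 0 else
        xx i ^ m * (v 0 + ∑ j, (- τ * xx i / (xx j - xx i)) * w j)) =
        v 0 * (if i = 0 then 0 else xx i ^ m) +
          ∑ j, - τ * (w j * (xx i ^ (m + 1) / (xx j - xx i))) := by
      intro i
      split_ifs with hi
      · subst hi
        rw [xx_zero]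
        simp
      · rw [mul_add, mul_sum, mul_comm (v 0)]
        congr 1
        apply sum_congr rfl
        intro j _
        ring
    rw [sum_congr rfl (fun i _ => h2 i), sum_add_distrib, ← mul_sum, sum_comm] at h1
    have h3 : ∀ j : Fin p, ∑ i : Fin p, - τ * (w j * (xx i ^ (m + 1) / (xx j - xx i))) =
        - τ * ((m + 1) * (w j * xx j ^ m)) := by
      intro j
      rw [← mul_sum, ← mul_sum, sum_xx (fun x => x ^ (m + 1) / (xx j - x)),
        key_sum hp2 (xx j) m hm]
      ring
    rw [sum_congr rfl (fun j _ => h3 j), ← mul_sum, ← mul_sum] at h1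
    exact h1
  have hpow : ∀ m : ℕ, 1 ≤ m → m < p - 1 →
      (∑ i : Fin p, if i = 0 then 0 else xx i ^ m) = (0 : ZMod p) := by
    intro m hm1 hm
    have h1 : ∀ i : Fin p, (if i = 0 then 0 else xx i ^ m) = xx i ^ m := by
      intro i
      split_ifs with hi
      · subst hi
        rw [xx_zero, zero_pow (by omega)]
      · rfl
    rw [sum_congr rfl (fun i _ => h1 i), sum_xx (fun x => x ^ m)]
    apply FiniteField.sum_pow_lt_card_sub_one
    rwa [ZMod.card]
  have hm1 : ∀ m : ℕ, 1 ≤ m → m < p - 1 → ∑ j, w j * xx j ^ m = 0 := by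
    intro m hm1 hm
    have h1 := hmom m hm
    rw [hpow m hm1 hm, mul_zero, zero_add] at h1
    have h2 : ((m : ZMod p) + 1) ≠ 0 := by
      have : ((m + 1 : ℕ) : ZMod p) ≠ 0 := by
        rw [Ne, ZMod.natCast_eq_zero_iff]
        intro hd
        have := Nat.le_of_dvd (by omega) hd
        omega
      push_cast at this
      exact this
    have h3 := (mul_eq_zero.mp h1).resolve_left (neg_ne_zero.mpr hτ)
    exact (mul_eq_zero.mp h3).resolve_left h2
  have hw : w = 0 := by
    apply Matrix.eq_zero_of_forall_pow_sum_mul_pow_eq_zero xx_inj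
    intro i
    by_cases h0 : (i : ℕ) = 0
    · rw [h0]; simpa using hrow0
    · by_cases h1 : (i : ℕ) < p - 1
      · exact hm1 i (by omega) h1
      · have h2 : (i : ℕ) = p - 1 := by have := i.isLt; omega
        rw [h2, ← hrow0]
        apply sum_congr rfl
        intro j _
        by_cases hj : j = 0
        · simp [w, hj]
        · rw [ZMod.pow_card_sub_one_eq_one (xx_ne hj), mul_one]
  have hv00 : v 0 = 0 := by
    have hne : (⟨1, by omega⟩ : Fin p) ≠ 0 := by
      intro h
      have := congrArg Fin.val h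
      simp at this
    have := hrowi ⟨1, by omega⟩ hne
    rw [hw] at this
    simpa using this
  ext j
  by_cases hj : j = 0
  · subst hj; exact hv00
  · have := congrFun hw j
    simpa [w, hj] using this

theorem det_eq_zero_of_skew (hp2 : p ≠ 2) (M : Matrix (Fin p) (Fin p) (ZMod p))
    (h1 : StandardForm M) (h2 : SkewSymmetric 0 M) : M.det = 0 := by
  let d : Fin p → ZMod p := fun i => if i = 0 then -1 else 1
  have hT : M.transpose = - (Matrix.diagonal d * M * Matrix.diagonal d) := by
    ext i j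
    rw [Matrix.neg_apply, Matrix.mul_diagonal, Matrix.diagonal_mul, Matrix.transpose_apply]
    by_cases hi : i = 0
    · by_cases hj : j = 0
      · subst hi; subst hj
        rw [h1.1 0]; simp
      · subst hi
        rw [(h1.2 j hj).1, (h1.2 j hj).2]
        simp [d, hj]
    · by_cases hj : j = 0
      · subst hj
        rw [(h1.2 i hi).1, (h1.2 i hi).2]
        simp [d, hi]
      · by_cases hij : i = j
        · subst hij
          rw [h1.1 i]; simp
        · have := h2 i j hi hj hij
          simp only [d, if_neg hi, if_neg hj]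
          linear_combination this
  have hdet : M.det = - M.det := by
    have e1 : M.det = (M.transpose).det := (Matrix.det_transpose M).symm
    have hd : (Matrix.diagonal d).det * (Matrix.diagonal d).det = 1 := by
      rw [Matrix.det_diagonal, ← prod_mul_distrib]
      apply prod_eq_one
      intro i _
      simp only [d]
      split_ifs <;> ring
    rw [hT, Matrix.det_neg, Matrix.det_mul, Matrix.det_mul, Fintype.card_fin,
      (hp.out.odd_of_ne_two hp2).neg_one_pow] at e1
    linear_combination e1 - M.det * hd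
  have h2' : (2 : ZMod p) ≠ 0 := by
    have : ((2 : ℕ) : ZMod p) ≠ 0 := by
      rw [Ne, ZMod.natCast_eq_zero_iff]
      intro hd
      have := Nat.le_of_dvd (by norm_num) hd
      have := hp.out.two_le
      omega
    simpa using this
  have : (2 : ZMod p) * M.det = 0 := by linear_combination hdet
  exact (mul_eq_zero.mp this).resolve_left h2'

end

/-- **Main theorem.**  For every odd prime `p` and every `τ : ZMod p` there is a
`τ`-skew-symmetric linear `(2,p,p)`-AONT in type `p` standard form if and only if `τ ≠ 0`;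
in particular skew-symmetric linear `(2,p,p)`-AONTs exist for infinitely many primes `p`. -/
theorem result :
    (∀ (p : ℕ) [Fact p.Prime], p ≠ 2 → ∀ τ : ZMod p,
      (∃ M : Matrix (Fin p) (Fin p) (ZMod p),
        IsLinearAONT M ∧ StandardForm M ∧ SkewSymmetric τ M) ↔ τ ≠ 0) ∧
    {p : ℕ | ∃ _ : Fact p.Prime, ∃ τ : ZMod p, ∃ M : Matrix (Fin p) (Fin p) (ZMod p),
      IsLinearAONT M ∧ StandardForm M ∧ SkewSymmetric τ M}.Infinite := by
  have main : ∀ (p : ℕ) [Fact p.Prime], p ≠ 2 → ∀ τ : ZMod p, τ ≠ 0 →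
      (∃ M : Matrix (Fin p) (Fin p) (ZMod p),
        IsLinearAONT M ∧ StandardForm M ∧ SkewSymmetric τ M) := by
    intro p _ hp2 τ hτ
    exact ⟨mat τ, ⟨unit_mat hp2 hτ, minors hτ⟩, standard τ, skew τ⟩
  refine ⟨?_, ?_⟩
  · intro p hp hp2 τ
    constructor
    · rintro ⟨M, hM, h1, h2⟩ h0
      subst h0
      have h3 := det_eq_zero_of_skew hp2 M h1 h2
      have h4 := hM.1
      rw [Matrix.isUnit_iff_isUnit_det, isUnit_iff_ne_zero] at h4
      exact h4 h3
    · exact main p hp2 τ
  · apply Set.Infinite.mono (s := {p : ℕ | p.Prime} \ {2})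
    · rintro p ⟨hp, hp2⟩
      have : Fact p.Prime := ⟨hp⟩
      exact ⟨this, 1, main p hp2 1 one_ne_zero⟩
    · exact Nat.infinite_setOfPred_prime.sdiff (Set.finite_singleton 2)

end Pool.Agent.Variants.SkewAllPrimes
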