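import Pool.Agent.NTW.Pub

set_option autoImplicit false

namespace Pool.Agent.Variants.SubstitutionSW

open Pool.Agent.Lib_helper61.SwitchBasic Pool.Agent.NTW Finset

/-- **Substitution theorem for switching reconstruction.**  Let `p` be the number of vertices of `G` and put
`q = 33 (⌈log₂ p⌉ + 1)³`.

(1) Let `G` arise from a graph `Γ` on `r ≥ 2` vertices by substituting arbitrary graphs, of arbitrary sizes, for the
vertices of `Γ`.  If for any two vertices `i`, `j` of `Γ` at least `q` other vertices of `Γ` are adjacent to exactly one of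
`i`, `j` and at least `q` other vertices are adjacent to both or none of them, then every graph in the switching class
of `G` is switching-reconstructible.

(2) In particular this holds if `Γ` is strongly regular with parameters `(r, k, l, m)`, `0 < m < k < r - 1` and
`9 q² + 2 ≤ r`.

(3) In general, let the vertices of `G` be partitioned into at least two parts (the fibres of `c`), such that any two
vertices of a part are separated by no vertex outside the part or by all of them.  Call `y`, `z` near if fewer than `q`
parts meet the set `sep G y z`, or fewer than `q` parts meet `cosep G y z`.  Suppose that with at most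
`r / (16 (⌈log₂ p⌉ + 1)²)` exceptions, `r` the number of parts, every vertex `y` has the property: at most two vertices
are near `y`, or all vertices near `y` lie in the part of `y`.  Then every graph in the switching class of `G` is
switching-reconstructible. -/
theorem result :
    (∀ (p r : ℕ) (Γ : SimpleGraph (Fin r)) (G : SimpleGraph (Fin p)) (c : Fin p → Fin r),
      2 ≤ r → IsSubst Γ G c →
      (∀ i j, i ≠ j → 33 * (Nat.clog 2 p + 1) ^ 3 ≤ (sep Γ i j).card ∧
        33 * (Nat.clog 2 p + 1) ^ 3 ≤ (cosep Γ i j).card) →
      ∀ S : Finset (Fin p), Recon (sw G S)) ∧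
    (∀ (p r k l m : ℕ) (Γ : SimpleGraph (Fin r)) [DecidableRel Γ.Adj] (G : SimpleGraph (Fin p))
      (c : Fin p → Fin r), Γ.IsSRGWith r k l m → 0 < m → m < k → k + 1 < r →
      9 * (33 * (Nat.clog 2 p + 1) ^ 3) ^ 2 + 2 ≤ r → IsSubst Γ G c →
      ∀ S : Finset (Fin p), Recon (sw G S)) ∧
    (∀ (p : ℕ), 3 < p → ∀ (G : SimpleGraph (Fin p)) (c : Fin p → ℕ),
      (∀ i, IsMod G (Fin5.part c i)) → (∃ y z, c y ≠ c z) → ∀ E : Finset (Fin p),
      16 * (Nat.clog 2 p + 1) ^ 2 * E.card ≤ (univ.image c).card →
      (∀ y, y ∉ E →
        {z | z ≠ y ∧ NearP G c (33 * (Nat.clog 2 p + 1) ^ 3) y z}.ncard ≤ 2 ∨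
        ∀ z, NearP G c (33 * (Nat.clog 2 p + 1) ^ 3) y z → c z = c y) →
      ∀ S : Finset (Fin p), Recon (sw G S)) :=
  ⟨fun p r Γ G c hr hc h S => subst_skeleton p r Γ G c hr hc h S,
   fun p r k l m Γ _ G c hΓ hm hmk hk hr hc S => subst_srg p r k l m Γ G c hΓ hm hmk hk hr hc S,
   fun p hp G c hmod h2 E hE h S => subst_class p hp G c hmod h2 E hE h S⟩

end Pool.Agent.Variants.SubstitutionSW
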