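import Mathlib

/-!
# Sign and integrality of a quartic binomial sum sequence (MP_f65ae4_nt)

For `n ≥ 2` we prove that `(-1)^(n-1) a_n` is a positive integer, where
`a_n = S_n / (2 n (2n+1) C(2n,n))` and
`S_n = ∑_{k<n} (20k+3) (4k)!/(k!)^4 (-1024)^(n-1-k)`.

Proof.  (1) A WZ pair gives `S_n = ∑_{k<n} g n k` with
`g n k = n C(2n,n) (-1)^k 4^k / 2 * t`,
`t = (2M)! A!^2 / (M! (2A)!^2 B! C!)`, `A = k+1`, `B = n-1-k`, `C = n-1`, `M = 2n+k`.
(2) Legendre's formula shows that `t` is an integer (divisible by `4` when `k = 0`, `n ≥ 2`),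
so that `2 n C(2n,n)` divides `S_n`.
(3) The recurrence `S_(n+1) = -1024 S_n + (20n+3) C(4n,2n) C(2n,n)^2` then yields the
remaining factor `2n+1`.
(4) The sign is that of an alternating sum with decreasing terms.
-/

open Finset Nat

namespace Pool.Agent.Results.MP_f65ae4_nt.SunQuartic

lemma floor_ineq (q k j : ℕ) (hq : q % 2 = 1) (hq3 : 3 ≤ q) :
    (3*k+2*j+2)/q + 2*((2*k+2)/q) + j/q + (k+j)/q ≤ (6*k+4*j+4)/q + 2*((k+1)/q) := by
  have hq0 : 0 < q := by omega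
  obtain ⟨X, a, hk, ha⟩ : ∃ X a, k + 1 = q * X + a ∧ a < q :=
    ⟨(k+1)/q, (k+1)%q, (Nat.div_add_mod _ _).symm, Nat.mod_lt _ hq0⟩
  obtain ⟨Y, b, hj, hb⟩ : ∃ Y b, j = q * Y + b ∧ b < q :=
    ⟨j/q, j%q, (Nat.div_add_mod _ _).symm, Nat.mod_lt _ hq0⟩
  have hX : (k+1)/q = X := by
    rw [hk, Nat.mul_add_div hq0, Nat.div_eq_of_lt ha, add_zero]
  have hY : j/q = Y := by
    rw [hj, Nat.mul_add_div hq0, Nat.div_eq_of_lt hb, add_zero]
  rw [hX, hY]
  -- upper bounds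
  have ub : ∀ m s : ℕ, m < (s + 1) * q → m / q ≤ s := fun m s h => by
    have := (Nat.div_lt_iff_lt_mul hq0).2 h
    omega
  have lb : ∀ m s : ℕ, s * q ≤ m → s ≤ m / q := fun m s h => (Nat.le_div_iff_mul_le hq0).2 h
  have e : ∀ u v w : ℕ, (u * X + v * Y + w) * q = u * (q * X) + v * (q * Y) + w * q := by
    intros; ring
  have main : ∀ dU dZ dV : ℕ, 2 * a < (dU + 1) * q → a + b < (dZ + 1) * q + 1 →
      3 * a + 2 * b < (dV + 1) * q + 1 → (dV + 2 * dU + dZ) * q + 2 ≤ 6 * a + 4 * b →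
      (3*k+2*j+2)/q + 2*((2*k+2)/q) + Y + (k+j)/q ≤ (6*k+4*j+4)/q + 2*X := by
    intro dU dZ dV h1 h2 h3 h4
    have H1 := ub (2*k+2) (2*X + 0*Y + dU) (by
      have := e 2 0 (dU+1)
      have h : (2 * X + 0 * Y + dU + 1) * q = 2 * (q * X) + 0 * (q * Y) + (dU+1) * q := by ring
      rw [h]; omega)
    have H2 := ub (k+j) (1*X + 1*Y + dZ) (by
      have h : (1 * X + 1 * Y + dZ + 1) * q = 1 * (q * X) + 1 * (q * Y) + (dZ+1) * q := by ring
      rw [h]; omega)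
    have H3 := ub (3*k+2*j+2) (3*X + 2*Y + dV) (by
      have h : (3 * X + 2 * Y + dV + 1) * q = 3 * (q * X) + 2 * (q * Y) + (dV+1) * q := by ring
      rw [h]; omega)
    have H4 := lb (6*k+4*j+4) (6*X + 4*Y + (dV + 2 * dU + dZ)) (by
      have h : (6 * X + 4 * Y + (dV + 2 * dU + dZ)) * q =
        6 * (q * X) + 4 * (q * Y) + (dV + 2 * dU + dZ) * q := by ring
      rw [h]; omega)
    omega
  -- the degenerate case a = b = 0
  by_cases hab : a + b = 0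
  · have ha0 : a = 0 := by omega
    have hb0 : b = 0 := by omega
    subst ha0 hb0
    have hXpos : 1 ≤ X := by
      rcases Nat.eq_zero_or_pos X with h | h
      · subst h; omega
      · exact h
    obtain ⟨X', rfl⟩ : ∃ X', X = X' + 1 := ⟨X - 1, by omega⟩
    have H1 := ub (2*k+2) (2*(X'+1)) (by
      have h : (2 * (X'+1) + 1) * q = 2 * (q * (X'+1)) + q := by ring
      rw [h]; omega)
    have H2 := ub (k+j) (X' + Y) (by
      have h : (X' + Y + 1) * q = (q * (X'+1)) + (q * Y) := by ring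
      rw [h]; omega)
    have H3 := ub (3*k+2*j+2) (3*X' + 2 + 2*Y) (by
      have h : (3 * X' + 2 + 2 * Y + 1) * q = 3 * (q * (X'+1)) + 2 * (q * Y) := by ring
      rw [h]; omega)
    have H4 := lb (6*k+4*j+4) (6*X' + 5 + 4*Y) (by
      have h : (6 * X' + 5 + 4 * Y) * q + q = 6 * (q * (X'+1)) + 4 * (q * Y) := by ring
      omega)
    omega
  · by_cases c1 : 2 * a < q
    · -- dU = 0
      by_cases c2 : a + b ≤ q
      · -- dZ = 0
        by_cases c3 : 3 * a + 2 * b ≤ q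
        · exact main 0 0 0 (by omega) (by omega) (by omega) (by omega)
        by_cases c4 : 3 * a + 2 * b ≤ 2 * q
        · exact main 0 0 1 (by omega) (by omega) (by omega) (by omega)
        · exact main 0 0 2 (by omega) (by omega) (by omega) (by omega)
      · -- dZ = 1
        by_cases c4 : 3 * a + 2 * b ≤ 2 * q
        · exact main 0 1 1 (by omega) (by omega) (by omega) (by omega)
        by_cases c5 : 3 * a + 2 * b ≤ 3 * q
        · exact main 0 1 2 (by omega) (by omega) (by omega) (by omega)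
        by_cases c6 : 3 * a + 2 * b ≤ 4 * q
        · exact main 0 1 3 (by omega) (by omega) (by omega) (by omega)
        · exact main 0 1 4 (by omega) (by omega) (by omega) (by omega)
    · by_cases c2 : a + b ≤ q
      · by_cases c3 : 3 * a + 2 * b ≤ 2 * q
        · exact main 1 0 1 (by omega) (by omega) (by omega) (by omega)
        · exact main 1 0 2 (by omega) (by omega) (by omega) (by omega)
      · by_cases c5 : 3 * a + 2 * b ≤ 3 * q
        · exact main 1 1 2 (by omega) (by omega) (by omega) (by omega)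
        by_cases c6 : 3 * a + 2 * b ≤ 4 * q
        · exact main 1 1 3 (by omega) (by omega) (by omega) (by omega)
        · exact main 1 1 4 (by omega) (by omega) (by omega) (by omega)

lemma two_val_le (n : ℕ) : (n !).factorization 2 ≤ n := by
  have := Nat.factorization_factorial_le_div_pred Nat.prime_two n
  simpa using this

lemma two_val_lt (n : ℕ) (hn : n ≠ 0) : (n !).factorization 2 < n := by
  have h := Nat.sub_one_mul_factorization_factorial (n := n) Nat.prime_two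
  have h2 : 0 < ((Nat.digits 2 n).sum) := by
    rw [pos_iff_ne_zero]
    intro h0
    have := Nat.modEq_digits_sum 2 n
    rw [List.sum_eq_zero_iff] at h0
    have h3 := Nat.getLast_digit_ne_zero 2 hn
    exact h3 (h0 _ (List.getLast_mem _))
  omega

lemma two_val (n : ℕ) : ((2 * n)!).factorization 2 = (n !).factorization 2 + n :=
  Nat.factorization_factorial_mul Nat.prime_two

/-- the main divisibility, together with the extra factor `4` when `k = 0`, `j ≥ 1`. -/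
lemma dvd_main (k j e : ℕ) (he : e = 0 ∨ (e = 2 ∧ k = 0 ∧ j ≠ 0)) :
    2 ^ e * ((3*k+2*j+2)! * ((2*k+2)!)^2 * j ! * (k+j)!) ∣ (6*k+4*j+4)! * ((k+1)!)^2 := by
  have hne : ∀ n : ℕ, n ! ≠ 0 := Nat.factorial_ne_zero
  have n1 : (3*k+2*j+2)! * ((2*k+2)!)^2 * j ! * (k+j)! ≠ 0 := by positivity
  rw [← Nat.factorization_prime_le_iff_dvd (by positivity) (by positivity)]
  intro p hp
  have expand : (2 ^ e * ((3*k+2*j+2)! * ((2*k+2)!)^2 * j ! * (k+j)!)).factorization p =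
      (2 ^ e).factorization p + ((3*k+2*j+2)!).factorization p + 2 * ((2*k+2)!).factorization p +
      (j !).factorization p + ((k+j)!).factorization p := by
    rw [Nat.factorization_mul (by positivity) n1, Nat.factorization_mul (by positivity) (hne _),
      Nat.factorization_mul (by positivity) (hne _), Nat.factorization_mul (hne _) (by positivity)]
    simp only [Nat.factorization_pow, Finsupp.add_apply, Finsupp.smul_apply, smul_eq_mul]
    ring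
  have expand2 : ((6*k+4*j+4)! * ((k+1)!)^2).factorization p =
      ((6*k+4*j+4)!).factorization p + 2 * ((k+1)!).factorization p := by
    rw [Nat.factorization_mul (hne _) (by positivity), Nat.factorization_pow]
    simp only [Finsupp.add_apply, Finsupp.smul_apply, smul_eq_mul]
  rw [expand, expand2]
  by_cases h2 : p = 2
  · subst h2
    have a1 : ((6*k+4*j+4)!).factorization 2 = ((3*k+2*j+2)!).factorization 2 + (3*k+2*j+2) := by
      rw [← two_val]; congr 3; ring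
    have a2 : ((2*k+2)!).factorization 2 = ((k+1)!).factorization 2 + (k+1) := by
      rw [← two_val]; congr 3
    have a3 : (2 ^ e).factorization 2 = e := by
      rw [Nat.factorization_pow]; simp [Nat.Prime.factorization_self Nat.prime_two]
    rw [a1, a2, a3]
    have b1 := two_val_le j
    have b2 := two_val_le (k+j)
    rcases he with he | ⟨he, hk, hj⟩
    · omega
    · have b3 := two_val_lt j hj
      subst hk
      have b4 := two_val_lt (0+j) (by omega)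
      omega
  · have a3 : (2 ^ e).factorization p = 0 := by
      rw [Nat.factorization_pow]
      simp [Nat.Prime.factorization Nat.prime_two, Ne.symm h2]
    rw [a3]
    have hb : ∀ n : ℕ, n < 6*k+4*j+5 → (n !).factorization p = ∑ i ∈ Finset.Ico 1 (6*k+4*j+5), n / p^i := by
      intro n hn
      apply Nat.factorization_factorial hp
      exact lt_of_le_of_lt (Nat.log_le_self p n) hn
    rw [hb _ (by omega), hb _ (by omega), hb _ (by omega), hb _ (by omega), hb _ (by omega), hb _ (by omega)]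
    rw [Finset.mul_sum, Finset.mul_sum, zero_add, ← Finset.sum_add_distrib, ← Finset.sum_add_distrib,
      ← Finset.sum_add_distrib, ← Finset.sum_add_distrib]
    apply Finset.sum_le_sum
    intro i hi
    rw [Finset.mem_Ico] at hi
    have hodd : Odd p := hp.odd_of_ne_two h2
    have hodd2 : Odd (p ^ i) := hodd.pow
    have h3 : 3 ≤ p := by
      have := hp.two_le
      omega
    have h4 : 3 ≤ p ^ i := le_trans h3 (Nat.le_self_pow (by omega) p)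
    exact floor_ineq (p ^ i) k j (Nat.odd_iff.1 hodd2) h4


/-- `t k j = (2M)! A!^2 / (M! (2A)!^2 B! C!)` -/
noncomputable def t (k j : ℕ) : ℚ :=
  (((6*k+4*j+4)! : ℚ) * (((k+1)! : ℚ))^2) /
    (((3*k+2*j+2)! : ℚ) * (((2*k+2)! : ℚ))^2 * (j ! : ℚ) * ((k+j)! : ℚ))

/-- The WZ companion: `g n k` for `k < n`, else `0`. -/
noncomputable def g (n k : ℕ) : ℚ :=
  if k < n then
    (-1)^k * 2^(2*k) / 2 * (((2*n)! : ℚ) * ((4*n+2*k)! : ℚ) * ((k+1)! : ℚ)^2) /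
      ((n ! : ℚ) * ((2*n+k)! : ℚ) * ((2*k+2)! : ℚ)^2 * ((n-1-k)! : ℚ) * ((n-1)! : ℚ)^2)
  else 0

noncomputable def f (n k : ℕ) : ℚ :=
  if k ≤ n then
    (20*(n:ℚ)-2*k+3) * (-1)^k * 4^k * (((2*n)! : ℚ) * ((4*n+2*k)! : ℚ) * (k ! : ℚ)^2) /
      ((n ! : ℚ)^3 * ((2*n+k)! : ℚ) * ((2*k)! : ℚ)^2 * ((n-k)! : ℚ))
  else 0

lemma wz_lt (k j : ℕ) : g (k+1+j+1) k + 1024 * g (k+1+j) k = f (k+1+j) k - f (k+1+j) (k+1) := by
  have hne : ∀ n : ℕ, (n ! : ℚ) ≠ 0 := fun n => Nat.cast_ne_zero.2 (Nat.factorial_ne_zero n)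
  unfold g f
  rw [if_pos (by omega), if_pos (by omega), if_pos (by omega), if_pos (by omega)]
  have e1 : k + 1 + j + 1 - 1 - k = j + 1 := by omega
  have e2 : k + 1 + j - 1 - k = j := by omega
  have e3 : k + 1 + j - k = j + 1 := by omega
  have e4 : k + 1 + j - (k + 1) = j := by omega
  have e5 : k + 1 + j + 1 - 1 = k + j + 1 := by omega
  have e6 : k + 1 + j - 1 = k + j := by omega
  rw [e1, e2, e3, e4, e5, e6]
  have h1 : ((2*(k+1+j+1))! : ℚ) = (2*((k:ℚ)+1+j)+2)*(2*((k:ℚ)+1+j)+1) * ((2*(k+1+j))! : ℚ) := by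
    rw [show 2*(k+1+j+1) = (2*(k+1+j)+1)+1 from by ring, Nat.factorial_succ, Nat.factorial_succ]
    push_cast; ring
  have h2 : ((4*(k+1+j+1)+2*k)! : ℚ) = (4*((k:ℚ)+1+j)+2*k+4)*(4*((k:ℚ)+1+j)+2*k+3)*
      (4*((k:ℚ)+1+j)+2*k+2)*(4*((k:ℚ)+1+j)+2*k+1) * ((4*(k+1+j)+2*k)! : ℚ) := by
    rw [show 4*(k+1+j+1)+2*k = (4*(k+1+j)+2*k)+1+1+1+1 from by ring, Nat.factorial_succ,
      Nat.factorial_succ, Nat.factorial_succ, Nat.factorial_succ]
    push_cast; ring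
  have h3 : ((2*(k+1+j+1)+k)! : ℚ) = (2*((k:ℚ)+1+j)+k+2)*(2*((k:ℚ)+1+j)+k+1) *
      ((2*(k+1+j)+k)! : ℚ) := by
    rw [show 2*(k+1+j+1)+k = (2*(k+1+j)+k)+1+1 from by ring, Nat.factorial_succ, Nat.factorial_succ]
    push_cast; ring
  have h4 : ((4*(k+1+j)+2*(k+1))! : ℚ) = (4*((k:ℚ)+1+j)+2*k+2)*(4*((k:ℚ)+1+j)+2*k+1) *
      ((4*(k+1+j)+2*k)! : ℚ) := by
    rw [show 4*(k+1+j)+2*(k+1) = (4*(k+1+j)+2*k)+1+1 from by ring, Nat.factorial_succ,
      Nat.factorial_succ]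
    push_cast; ring
  have h5 : ((2*(k+1+j)+(k+1))! : ℚ) = (2*((k:ℚ)+1+j)+k+1) * ((2*(k+1+j)+k)! : ℚ) := by
    rw [show 2*(k+1+j)+(k+1) = (2*(k+1+j)+k)+1 from by ring, Nat.factorial_succ]
    push_cast; ring
  have h6 : ((k+1)! : ℚ) = ((k:ℚ)+1) * (k ! : ℚ) := by
    rw [Nat.factorial_succ]; push_cast; ring
  have h7 : ((2*k+2)! : ℚ) = (2*(k:ℚ)+2)*(2*(k:ℚ)+1) * ((2*k)! : ℚ) := by
    rw [show 2*k+2 = (2*k)+1+1 from by ring, Nat.factorial_succ, Nat.factorial_succ]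
    push_cast; ring
  have h7' : ((2*(k+1))! : ℚ) = (2*(k:ℚ)+2)*(2*(k:ℚ)+1) * ((2*k)! : ℚ) := by
    rw [← h7]; congr 2
  have h8 : ((j+1)! : ℚ) = ((j:ℚ)+1) * (j ! : ℚ) := by
    rw [Nat.factorial_succ]; push_cast; ring
  have h9 : ((k+1+j)! : ℚ) = ((k:ℚ)+1+j) * ((k+j)! : ℚ) := by
    rw [show k+1+j = (k+j)+1 from by ring, Nat.factorial_succ]; push_cast; ring
  have h10 : ((k+1+j+1)! : ℚ) = ((k:ℚ)+1+j+1) * (((k:ℚ)+1+j) * ((k+j)! : ℚ)) := by
    rw [← h9, Nat.factorial_succ]; push_cast; ring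
  have h11 : ((k+j+1)! : ℚ) = ((k:ℚ)+1+j) * ((k+j)! : ℚ) := by
    rw [Nat.factorial_succ]; push_cast; ring
  rw [h1, h2, h3, h4, h5, h7, h7', h6, h8, h10, h9, h11]
  have n1 := hne (2*(k+1+j))
  have n2 := hne (4*(k+1+j)+2*k)
  have n3 := hne (2*(k+1+j)+k)
  have n4 := hne k
  have n5 := hne (2*k)
  have n6 := hne j
  have n7 := hne (k+j)
  generalize ((2*(k+1+j))! : ℚ) = F1 at *
  generalize ((4*(k+1+j)+2*k)! : ℚ) = F2 at *
  generalize ((2*(k+1+j)+k)! : ℚ) = F3 at *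
  generalize (k ! : ℚ) = F4 at *
  generalize ((2*k)! : ℚ) = F5 at *
  generalize (j ! : ℚ) = F6 at *
  generalize ((k+j)! : ℚ) = F7 at *
  have p4 : (2:ℚ)^(2*k) = 4^k := by rw [pow_mul]; norm_num
  rw [p4]
  have q1 : (k:ℚ)+1+j+1 ≠ 0 := by positivity
  have q2 : (k:ℚ)+1+j ≠ 0 := by positivity
  have q3 : (2*((k:ℚ)+1+j)+k+2) ≠ 0 := by positivity
  have q4 : (2*((k:ℚ)+1+j)+k+1) ≠ 0 := by positivity
  have q5 : (2*(k:ℚ)+2) ≠ 0 := by positivity
  have q6 : (2*(k:ℚ)+1) ≠ 0 := by positivity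
  have q7 : ((j:ℚ)+1) ≠ 0 := by positivity
  have q8 : ((k:ℚ)+1) ≠ 0 := by positivity
  push_cast
  rw [pow_succ (-1:ℚ) k, pow_succ (4:ℚ) k]
  field_simp
  ring


lemma wz_eq (n : ℕ) : g (n+1) n = f n n := by
  have hne : ∀ n : ℕ, (n ! : ℚ) ≠ 0 := fun n => Nat.cast_ne_zero.2 (Nat.factorial_ne_zero n)
  unfold g f
  rw [if_pos (by omega), if_pos (by omega)]
  have e1 : n + 1 - 1 - n = 0 := by omega
  have e2 : n - n = 0 := by omega
  have e3 : n + 1 - 1 = n := by omega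
  rw [e1, e2, e3]
  have h1 : ((2*(n+1))! : ℚ) = (2*(n:ℚ)+2)*(2*(n:ℚ)+1) * ((2*n)! : ℚ) := by
    rw [show 2*(n+1) = (2*n)+1+1 from by ring, Nat.factorial_succ, Nat.factorial_succ]
    push_cast; ring
  have h7 : ((2*n+2)! : ℚ) = (2*(n:ℚ)+2)*(2*(n:ℚ)+1) * ((2*n)! : ℚ) := by
    rw [← h1]; congr 2
  have h2 : ((4*(n+1)+2*n)! : ℚ) = (6*(n:ℚ)+4)*(6*(n:ℚ)+3)*
      (6*(n:ℚ)+2)*(6*(n:ℚ)+1) * ((6*n)! : ℚ) := by
    rw [show 4*(n+1)+2*n = (6*n)+1+1+1+1 from by ring, Nat.factorial_succ,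
      Nat.factorial_succ, Nat.factorial_succ, Nat.factorial_succ]
    push_cast; ring
  have h2' : ((4*n+2*n)! : ℚ) = ((6*n)! : ℚ) := by
    rw [show 4*n+2*n = 6*n from by ring]
  have h3 : ((2*(n+1)+n)! : ℚ) = (3*(n:ℚ)+2)*(3*(n:ℚ)+1) * ((3*n)! : ℚ) := by
    rw [show 2*(n+1)+n = (3*n)+1+1 from by ring, Nat.factorial_succ, Nat.factorial_succ]
    push_cast; ring
  have h3' : ((2*n+n)! : ℚ) = ((3*n)! : ℚ) := by
    rw [show 2*n+n = 3*n from by ring]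
  have h6 : ((n+1)! : ℚ) = ((n:ℚ)+1) * (n ! : ℚ) := by
    rw [Nat.factorial_succ]; push_cast; ring
  rw [h1, h2, h2', h3, h3', h7, h6, Nat.factorial_zero]
  have n1 := hne (2*n)
  have n2 := hne (6*n)
  have n3 := hne (3*n)
  have n4 := hne n
  generalize ((2*n)! : ℚ) = F1 at *
  generalize ((6*n)! : ℚ) = F2 at *
  generalize ((3*n)! : ℚ) = F3 at *
  generalize (n ! : ℚ) = F4 at *
  have p4 : (2:ℚ)^(2*n) = 4^n := by rw [pow_mul]; norm_num
  rw [p4]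
  have q5 : (2*(n:ℚ)+2) ≠ 0 := by positivity
  have q6 : (2*(n:ℚ)+1) ≠ 0 := by positivity
  have q7 : (3*(n:ℚ)+2) ≠ 0 := by positivity
  have q8 : (3*(n:ℚ)+1) ≠ 0 := by positivity
  have q9 : ((n:ℚ)+1) ≠ 0 := by positivity
  push_cast
  field_simp
  ring

/-- The summand `w n = (20 n + 3) M_n`. -/
noncomputable def w (n : ℕ) : ℚ := (20*(n:ℚ)+3) * (((4*n)! : ℚ) / (n ! : ℚ)^4)

lemma f_zero (n : ℕ) : f n 0 = w n := by
  have hne : ∀ n : ℕ, (n ! : ℚ) ≠ 0 := fun n => Nat.cast_ne_zero.2 (Nat.factorial_ne_zero n)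
  unfold f w
  rw [if_pos (by omega)]
  simp only [Nat.cast_zero, mul_zero, sub_zero, pow_zero, mul_one, Nat.factorial_zero,
    Nat.cast_one, one_pow, add_zero, Nat.sub_zero]
  have n1 := hne (2*n)
  have n4 := hne n
  field_simp

noncomputable def S (n : ℕ) : ℚ :=
  ∑ k ∈ Finset.range n, (20*(k:ℚ)+3) * (((4*k)! : ℚ) / (k ! : ℚ)^4) * (-1024)^(n-1-k)

lemma S_succ (n : ℕ) : S (n+1) = -1024 * S n + w n := by
  unfold S w
  rw [Finset.sum_range_succ, Finset.mul_sum]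
  congr 1
  · apply Finset.sum_congr rfl
    intro k hk
    rw [Finset.mem_range] at hk
    have : n + 1 - 1 - k = (n - 1 - k) + 1 := by omega
    rw [this, pow_succ]
    ring
  · have : n + 1 - 1 - n = 0 := by omega
    rw [this, pow_zero, mul_one]

lemma sum_g_succ (n : ℕ) : ∑ k ∈ Finset.range (n+1), g (n+1) k =
    -1024 * ∑ k ∈ Finset.range n, g n k + w n := by
  rw [Finset.sum_range_succ, wz_eq, ← f_zero]
  have h : ∀ k ∈ Finset.range n, g (n+1) k = (f n k - f n (k+1)) - 1024 * g n k := by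
    intro k hk
    rw [Finset.mem_range] at hk
    obtain ⟨j, rfl⟩ : ∃ j, n = k + 1 + j := ⟨n - (k+1), by omega⟩
    rw [← wz_lt]; ring
  rw [Finset.sum_congr rfl h, Finset.sum_sub_distrib, Finset.sum_range_sub', ← Finset.mul_sum]
  ring

lemma S_eq (n : ℕ) : S n = ∑ k ∈ Finset.range n, g n k := by
  induction n with
  | zero => simp [S]
  | succ n ih => rw [S_succ, sum_g_succ, ih]


lemma t_int (k j e : ℕ) (he : e = 0 ∨ (e = 2 ∧ k = 0 ∧ j ≠ 0)) : ∃ z : ℤ, t k j = 2 ^ e * z := by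
  obtain ⟨c, hc⟩ := dvd_main k j e he
  refine ⟨(c : ℤ), ?_⟩
  have hne : ∀ n : ℕ, (n ! : ℚ) ≠ 0 := fun n => Nat.cast_ne_zero.2 (Nat.factorial_ne_zero n)
  have hc' : ((6*k+4*j+4)! : ℚ) * (((k+1)! : ℚ))^2 =
      2 ^ e * (((3*k+2*j+2)! : ℚ) * (((2*k+2)! : ℚ))^2 * (j ! : ℚ) * ((k+j)! : ℚ)) * (c : ℚ) := by
    exact_mod_cast hc
  unfold t
  rw [hc']
  have n1 := hne (3*k+2*j+2)
  have n2 := hne (2*k+2)
  have n3 := hne j
  have n4 := hne (k+j)
  push_cast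
  field_simp

lemma centralBinom_cast (n : ℕ) : (Nat.centralBinom n : ℚ) = ((2*n)! : ℚ) / ((n ! : ℚ))^2 := by
  have hne : ∀ n : ℕ, (n ! : ℚ) ≠ 0 := fun n => Nat.cast_ne_zero.2 (Nat.factorial_ne_zero n)
  rw [Nat.centralBinom_eq_two_mul_choose, Nat.cast_choose ℚ (by omega)]
  have : 2 * n - n = n := by omega
  rw [this, sq]

lemma g_eq (k j : ℕ) : g (k+1+j) k =
    ((k+1+j : ℕ) : ℚ) * (Nat.centralBinom (k+1+j) : ℚ) * ((-1)^k * 4^k / 2) * t k j := by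
  have hne : ∀ n : ℕ, (n ! : ℚ) ≠ 0 := fun n => Nat.cast_ne_zero.2 (Nat.factorial_ne_zero n)
  unfold g t
  rw [if_pos (by omega), centralBinom_cast]
  have e2 : k + 1 + j - 1 - k = j := by omega
  have e6 : k + 1 + j - 1 = k + j := by omega
  have e7 : 4 * (k + 1 + j) + 2 * k = 6*k+4*j+4 := by ring
  have e8 : 2 * (k + 1 + j) + k = 3*k+2*j+2 := by ring
  rw [e2, e6, e7, e8]
  have h9 : ((k+1+j)! : ℚ) = ((k:ℚ)+1+j) * ((k+j)! : ℚ) := by
    rw [show k+1+j = (k+j)+1 from by ring, Nat.factorial_succ]; push_cast; ring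
  rw [h9]
  have p4 : (2:ℚ)^(2*k) = 4^k := by rw [pow_mul]; norm_num
  rw [p4]
  have n1 := hne (3*k+2*j+2)
  have n2 := hne (2*k+2)
  have n3 := hne j
  have n4 := hne (k+j)
  have q2 : (k:ℚ)+1+j ≠ 0 := by positivity
  push_cast
  field_simp

lemma g_dvd (n k : ℕ) (hn : 2 ≤ n) (hk : k < n) :
    ∃ c : ℤ, g n k = (2 * (n:ℚ) * (Nat.centralBinom n : ℚ)) * c := by
  obtain ⟨j, rfl⟩ : ∃ j, n = k + 1 + j := ⟨n - (k+1), by omega⟩
  rw [g_eq]
  rcases Nat.eq_zero_or_pos k with hk0 | hk0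
  · subst hk0
    obtain ⟨z, hz⟩ := t_int 0 j 2 (Or.inr ⟨rfl, rfl, by omega⟩)
    refine ⟨z, ?_⟩
    rw [hz]; push_cast; ring
  · obtain ⟨k', rfl⟩ : ∃ k', k = k' + 1 := ⟨k - 1, by omega⟩
    obtain ⟨z, hz⟩ := t_int (k'+1) j 0 (Or.inl rfl)
    refine ⟨(-1)^(k'+1) * 4^k' * z, ?_⟩
    rw [hz]; push_cast; ring

lemma S_dvd (n : ℕ) (hn : 2 ≤ n) :
    ∃ b : ℤ, S n = (2 * (n:ℚ) * (Nat.centralBinom n : ℚ)) * b := by
  rw [S_eq]
  have key : ∀ s : Finset ℕ, (∀ k ∈ s, k < n) →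
      ∃ b : ℤ, ∑ k ∈ s, g n k = (2 * (n:ℚ) * (Nat.centralBinom n : ℚ)) * b := by
    intro s
    induction s using Finset.induction_on with
    | empty => intro _; exact ⟨0, by simp⟩
    | insert a s ha ih =>
      intro h
      obtain ⟨b, hb⟩ := ih (fun k hk => h k (Finset.mem_insert_of_mem hk))
      obtain ⟨c, hc⟩ := g_dvd n a hn (h a (Finset.mem_insert_self _ _))
      refine ⟨c + b, ?_⟩
      rw [Finset.sum_insert ha, hb, hc]; push_cast; ring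
  exact key _ (fun k hk => Finset.mem_range.1 hk)

/-- integrality of `M_n = C(4n,2n) C(2n,n)^2`. -/
lemma M_cast (n : ℕ) : ((4*n)! : ℚ) / (n ! : ℚ)^4 =
    (Nat.centralBinom (2*n) : ℚ) * (Nat.centralBinom n : ℚ)^2 := by
  have hne : ∀ n : ℕ, (n ! : ℚ) ≠ 0 := fun n => Nat.cast_ne_zero.2 (Nat.factorial_ne_zero n)
  rw [centralBinom_cast, centralBinom_cast]
  have n1 := hne (2*n)
  have n2 := hne n
  rw [show 2*(2*n) = 4*n from by ring]
  field_simp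

lemma a_int (n : ℕ) (hn : 2 ≤ n) :
    ∃ a : ℤ, S n = (2 * (n:ℚ) * (2*(n:ℚ)+1) * (Nat.centralBinom n : ℚ)) * a := by
  obtain ⟨b, hb⟩ := S_dvd n hn
  obtain ⟨b', hb'⟩ := S_dvd (n+1) (by omega)
  have hrec := S_succ n
  rw [hb, hb'] at hrec
  unfold w at hrec
  rw [M_cast] at hrec
  have hcb := Nat.succ_mul_centralBinom_succ n
  have hcb' : ((n:ℚ)+1) * (Nat.centralBinom (n+1) : ℚ) = 2 * (2*(n:ℚ)+1) * (Nat.centralBinom n : ℚ) := by
    exact_mod_cast hcb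
  obtain ⟨c, hc⟩ := Nat.succ_dvd_centralBinom (2*n)
  have hc' : (Nat.centralBinom (2*n) : ℚ) = (2*(n:ℚ)+1) * c := by
    rw [hc]; push_cast; ring
  have hpos : (0:ℚ) < (Nat.centralBinom n : ℚ) := by exact_mod_cast Nat.centralBinom_pos n
  have h1 : 2 * (((n+1 : ℕ)):ℚ) * (Nat.centralBinom (n+1) : ℚ) * (b':ℚ) =
      4 * (2*(n:ℚ)+1) * (Nat.centralBinom n : ℚ) * b' := by
    have : 2 * (((n+1 : ℕ)):ℚ) * (Nat.centralBinom (n+1) : ℚ) * (b':ℚ) =
      2 * (((n:ℚ)+1) * (Nat.centralBinom (n+1) : ℚ)) * b' := by push_cast; ring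
    rw [this, hcb']; ring
  rw [h1, hc'] at hrec
  have h2 : 2048 * (n:ℚ) * b = (2*(n:ℚ)+1) * ((20*(n:ℚ)+3) * c * (Nat.centralBinom n : ℚ) - 4 * b') := by
    have h3 : (Nat.centralBinom n : ℚ) * (2048 * (n:ℚ) * b) = (Nat.centralBinom n : ℚ) *
      ((2*(n:ℚ)+1) * ((20*(n:ℚ)+3) * c * (Nat.centralBinom n : ℚ) - 4 * b')) := by
      linear_combination hrec
    exact mul_left_cancel₀ hpos.ne' h3
  have h3 : 2048 * (n:ℤ) * b = (2*(n:ℤ)+1) * ((20*(n:ℤ)+3) * c * (Nat.centralBinom n : ℤ) - 4 * b') := by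
    exact_mod_cast h2
  have h4 : (2*(n:ℤ)+1) ∣ 2048 * (n:ℤ) * b := ⟨_, h3⟩
  have hco : IsCoprime (2*(n:ℤ)+1) (2048 * (n:ℤ)) := by
    have i1 : IsCoprime (2*(n:ℤ)+1) 2 := ⟨1, -n, by ring⟩
    have i2 : IsCoprime (2*(n:ℤ)+1) (n:ℤ) := ⟨1, -2, by ring⟩
    have i3 : IsCoprime (2*(n:ℤ)+1) (2^11) := i1.pow_right
    have : (2048 : ℤ) = 2^11 := by norm_num
    rw [this]
    exact i3.mul_right i2
  obtain ⟨a, ha⟩ := hco.dvd_of_dvd_mul_left h4
  refine ⟨a, ?_⟩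
  rw [hb, ha]; push_cast; ring


lemma w_pos (n : ℕ) : 0 < w n := by
  unfold w; positivity

lemma w_lt (n : ℕ) : w (n+1) < 1024 * w n := by
  have hne : ∀ n : ℕ, (0:ℚ) < (n ! : ℚ) := fun n => by exact_mod_cast Nat.factorial_pos n
  unfold w
  have h2 : ((4*(n+1))! : ℚ) = (4*(n:ℚ)+4)*(4*(n:ℚ)+3)*(4*(n:ℚ)+2)*(4*(n:ℚ)+1) * ((4*n)! : ℚ) := by
    rw [show 4*(n+1) = (4*n)+1+1+1+1 from by ring, Nat.factorial_succ,
      Nat.factorial_succ, Nat.factorial_succ, Nat.factorial_succ]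
    push_cast; ring
  have h6 : ((n+1)! : ℚ) = ((n:ℚ)+1) * (n ! : ℚ) := by
    rw [Nat.factorial_succ]; push_cast; ring
  rw [h2, h6]
  have p1 := hne (4*n)
  have p2 := hne n
  have hn : (0:ℚ) ≤ (n:ℚ) := Nat.cast_nonneg n
  have e1 : (20 * ((n+1 : ℕ):ℚ) + 3) * ((4*(n:ℚ)+4)*(4*(n:ℚ)+3)*(4*(n:ℚ)+2)*(4*(n:ℚ)+1) * ((4*n)! : ℚ) /
      (((n:ℚ)+1) * (n ! : ℚ))^4) = ((20 * (n:ℚ) + 23) * (4*(4*(n:ℚ)+3)*(4*(n:ℚ)+2)*(4*(n:ℚ)+1)) / ((n:ℚ)+1)^3)
      * (((4*n)! : ℚ) / (n ! : ℚ)^4) := by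
    push_cast
    field_simp
    ring
  rw [e1, ← mul_assoc (1024 : ℚ)]
  apply mul_lt_mul_of_pos_right _ (by positivity)
  rw [div_lt_iff₀ (by positivity)]
  have : 1024 * (20 * (n:ℚ) + 3) * ((n:ℚ)+1)^3 -
    (20 * (n:ℚ) + 23) * (4*(4*(n:ℚ)+3)*(4*(n:ℚ)+2)*(4*(n:ℚ)+1)) =
    15360 * (n:ℚ)^4 + 50944 * (n:ℚ)^3 + 58304 * (n:ℚ)^2 + 25168 * (n:ℚ) + 2520 := by ring
  nlinarith [this, pow_nonneg hn 4, pow_nonneg hn 3, pow_nonneg hn 2]

lemma sign_aux (m : ℕ) : w (2*m) ≤ S (2*m+1) ∧ S (2*m+2) < 0 := by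
  induction m with
  | zero =>
    have h0 : S 0 = 0 := by simp [S]
    have h1 := S_succ 0
    have h2 := S_succ 1
    rw [h0] at h1
    have hw := w_lt 0
    norm_num at h1 h2 hw ⊢
    constructor
    · linarith
    · linarith
  | succ m ih =>
    obtain ⟨h1, h2⟩ := ih
    have h3 := S_succ (2*m+2)
    have h4 := S_succ (2*m+3)
    have hw := w_lt (2*m+2)
    have hw' := w_pos (2*m+2)
    have e1 : 2*(m+1) = 2*m+2 := by ring
    have e3 : 2*m+2+1 = 2*m+3 := by ring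
    have e4 : 2*m+3+1 = 2*m+4 := by ring
    rw [e1]
    rw [e3] at *
    rw [e4] at h4
    have e5 : 2*m+2+2 = 2*m+4 := by ring
    rw [e5]
    constructor
    · linarith
    · linarith

lemma sign (n : ℕ) (hn : 1 ≤ n) : 0 < (-1 : ℚ)^(n-1) * S n := by
  rcases Nat.even_or_odd' n with ⟨m, h | h⟩
  · obtain ⟨m', rfl⟩ : ∃ m', m = m' + 1 := ⟨m - 1, by omega⟩
    have h2 := (sign_aux m').2
    have e : n = 2*m'+2 := by omega
    rw [e]
    have : 2*m'+2-1 = 2*m'+1 := by omega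
    rw [this, pow_succ, pow_mul]
    norm_num
    exact h2
  · have h2 := (sign_aux m).1
    have := w_pos (2*m)
    rw [h]
    have e : 2*m+1-1 = 2*m := by omega
    rw [e, pow_mul]
    norm_num
    linarith

/-- For every `n ≥ 2`, `(-1)^(n-1) * a_n` is a positive integer, where
`a_n = (∑_{k=0}^{n-1} (20k+3) (4k)!/(k!)^4 (-1024)^(n-1-k)) / (2n(2n+1) C(2n,n))`. -/
theorem result (n : ℕ) (hn : 2 ≤ n) : ∃ m : ℕ, 0 < m ∧
    (-1 : ℚ) ^ (n - 1) *
      ((∑ k ∈ Finset.range n,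
          (20 * (k : ℚ) + 3) * (((4 * k)! : ℚ) / (k ! : ℚ) ^ 4) * (-1024) ^ (n - 1 - k)) /
        (2 * (n : ℚ) * (2 * (n : ℚ) + 1) * (Nat.choose (2 * n) n : ℚ))) = (m : ℚ) := by
  obtain ⟨a, ha⟩ := a_int n hn
  have hs := sign n (by omega)
  have hc : (0 : ℚ) < (Nat.centralBinom n : ℚ) := by exact_mod_cast Nat.centralBinom_pos n
  have hn' : (0 : ℚ) < (n : ℚ) := by
    have : 0 < n := by omega
    exact_mod_cast this
  have hD : (0 : ℚ) < 2 * (n : ℚ) * (2 * (n : ℚ) + 1) * (Nat.centralBinom n : ℚ) := by positivity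
  change ∃ m : ℕ, 0 < m ∧ (-1 : ℚ) ^ (n - 1) *
    (S n / (2 * (n : ℚ) * (2 * (n : ℚ) + 1) * (Nat.choose (2 * n) n : ℚ))) = (m : ℚ)
  rw [← Nat.centralBinom_eq_two_mul_choose]
  have e1 : S n / (2 * (n : ℚ) * (2 * (n : ℚ) + 1) * (Nat.centralBinom n : ℚ)) = (a : ℚ) := by
    rw [ha]; field_simp
  rw [e1]
  have e2 : (0 : ℚ) < (-1) ^ (n - 1) * (a : ℚ) := by
    rw [← e1, ← mul_div_assoc]
    exact div_pos hs hD
  have e3 : (0 : ℤ) < (-1) ^ (n - 1) * a := by exact_mod_cast e2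
  refine ⟨((-1) ^ (n - 1) * a).toNat, by omega, ?_⟩
  have e4 : ((((-1) ^ (n - 1) * a).toNat : ℤ)) = (-1) ^ (n - 1) * a := Int.toNat_of_nonneg e3.le
  have e5 : (((((-1) ^ (n - 1) * a).toNat : ℤ)) : ℚ) = (-1) ^ (n - 1) * (a : ℚ) := by
    rw [e4]; push_cast; ring
  rw [← e5]; norm_cast

end Pool.Agent.Results.MP_f65ae4_nt.SunQuartic
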